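import Pool.Agent.PWD.Text

/-!
# Pencil bodies: definitions (MP_725b61_nt)
-/

set_option autoImplicit false

open MeasureTheory

namespace Pool.Agent.PEN

/-- the matrix `R(y) = R_0 + y_1 R_1 + ... + y_n R_n` -/
noncomputable def pen {n k : ℕ} (R : Fin (n + 1) → Matrix (Fin k) (Fin k) ℚ) (y : Fin n → ℝ) :
    Matrix (Fin k) (Fin k) ℝ :=
  Matrix.of fun i j => (R 0 i j : ℝ) + ∑ l : Fin n, y l * (R l.succ i j : ℝ)

/-- the set of all `(y, z)` in `ℝⁿ × ℝᵏ` with `|(R(y) z)_i| ≤ 1/2` for all `i` -/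
def body {n k : ℕ} (R : Fin (n + 1) → Matrix (Fin k) (Fin k) ℚ) :
    Set ((Fin n → ℝ) × (Fin k → ℝ)) :=
  {p | ∀ i, |∑ j, pen R p.1 i j * p.2 j| ≤ 1 / 2}

/-- the finite volumes of these sets -/
def PV (n : ℕ) (v : ℝ) : Prop :=
  ∃ (k : ℕ) (R : Fin (n + 1) → Matrix (Fin k) (Fin k) ℚ),
    volume (body R) ≠ ⊤ ∧ v = (volume (body R)).toReal

end Pool.Agent.PEN
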