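import Pool.Agent.PEN.Defs

/-!
# Pencil bodies: linearization (MP_725b61_nt)

Every polynomial is the determinant of a matrix with entries of degree at most one (Higman, Valiant).
-/

set_option autoImplicit false

open MvPolynomial Matrix

namespace Pool.Agent.PEN

variable {n : ℕ}

/-- degree at most one -/
def Aff (p : MvPolynomial (Fin n) ℚ) : Prop :=
  ∃ (a : ℚ) (c : Fin n → ℚ), p = C a + ∑ j, C (c j) * X j

theorem aff_C (a : ℚ) : Aff (C a : MvPolynomial (Fin n) ℚ) := ⟨a, 0, by simp⟩

theorem aff_zero : Aff (0 : MvPolynomial (Fin n) ℚ) := ⟨0, 0, by simp⟩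

theorem aff_one : Aff (1 : MvPolynomial (Fin n) ℚ) := ⟨1, 0, by simp⟩

theorem aff_X (j : Fin n) : Aff (X j : MvPolynomial (Fin n) ℚ) := by
  refine ⟨0, Pi.single j 1, ?_⟩
  rw [Finset.sum_eq_single j]
  · simp
  · intro i _ hi
    rw [Pi.single_eq_of_ne hi]
    simp
  · simp

theorem Aff.neg {p : MvPolynomial (Fin n) ℚ} (h : Aff p) : Aff (-p) := by
  obtain ⟨a, c, rfl⟩ := h
  refine ⟨-a, fun j => -c j, ?_⟩
  simp only [map_neg, neg_mul, Finset.sum_neg_distrib]
  ring

/-- `p` is the Schur complement of a matrix with entries of degree at most one and unimodular main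
block -/
def Lin (p : MvPolynomial (Fin n) ℚ) : Prop :=
  ∃ (m : ℕ) (N : Matrix (Fin m) (Fin m) (MvPolynomial (Fin n) ℚ))
    (b c u : Fin m → MvPolynomial (Fin n) ℚ) (d : MvPolynomial (Fin n) ℚ),
    (∀ i j, Aff (N i j)) ∧ (∀ i, Aff (b i)) ∧ (∀ i, Aff (c i)) ∧ Aff d ∧ N.det = 1 ∧
    N *ᵥ u = -b ∧ p = d + c ⬝ᵥ u

/-- the same with an arbitrary index type -/
theorem lin_of {m : Type} [Fintype m] [DecidableEq m] {p : MvPolynomial (Fin n) ℚ}
    (N : Matrix m m (MvPolynomial (Fin n) ℚ))
    (b c u : m → MvPolynomial (Fin n) ℚ) (d : MvPolynomial (Fin n) ℚ)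
    (h1 : ∀ i j, Aff (N i j)) (h2 : ∀ i, Aff (b i)) (h3 : ∀ i, Aff (c i)) (h4 : Aff d)
    (h5 : N.det = 1) (h6 : N *ᵥ u = -b) (h7 : p = d + c ⬝ᵥ u) : Lin p := by
  let e := Fintype.equivFin m
  refine ⟨Fintype.card m, N.submatrix e.symm e.symm, b ∘ e.symm, c ∘ e.symm, u ∘ e.symm, d,
    fun i j => h1 _ _, fun i => h2 _, fun i => h3 _, h4, ?_, ?_, ?_⟩
  · rw [det_submatrix_equiv_self, h5]
  · rw [submatrix_mulVec_equiv]
    have : (u ∘ ⇑e.symm) ∘ ⇑e.symm.symm = u := by
      funext x
      simp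
    rw [this, h6]
    rfl
  · rw [comp_equiv_dotProduct_comp_equiv, h7]

theorem lin_C (a : ℚ) : Lin (C a : MvPolynomial (Fin n) ℚ) := by
  refine ⟨0, 0, 0, 0, 0, C a, fun i => i.elim0, fun i => i.elim0, fun i => i.elim0, aff_C a, ?_,
    ?_, ?_⟩
  · simp
  · funext i
    exact i.elim0
  · simp

theorem Lin.add {p q : MvPolynomial (Fin n) ℚ} (hp : Lin p) (hq : Lin q) : Lin (p + q) := by
  obtain ⟨m, N, b, c, u, d, h1, h2, h3, h4, h5, h6, h7⟩ := hp
  obtain ⟨m', N', b', c', u', d', k1, k2, k3, k4, k5, k6, k7⟩ := hq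
  obtain ⟨a0, c0, e0⟩ := h4
  obtain ⟨a1, c1, e1⟩ := k4
  refine lin_of (fromBlocks N 0 0 N') (Sum.elim b b') (Sum.elim c c') (Sum.elim u u') (d + d')
    ?_ ?_ ?_ ?_ ?_ ?_ ?_
  · rintro (i | i) (j | j)
    · exact h1 i j
    · exact aff_zero
    · exact aff_zero
    · exact k1 i j
  · rintro (i | i)
    · exact h2 i
    · exact k2 i
  · rintro (i | i)
    · exact h3 i
    · exact k3 i
  · refine ⟨a0 + a1, fun j => c0 j + c1 j, ?_⟩
    rw [e0, e1]
    simp only [map_add, add_mul, Finset.sum_add_distrib]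
    ring
  · rw [det_fromBlocks_zero₂₁, h5, k5, one_mul]
  · rw [fromBlocks_mulVec]
    funext x
    rcases x with i | i
    · have := congrFun h6 i
      simpa using this
    · have := congrFun k6 i
      simpa using this
  · rw [h7, k7, sumElim_dotProduct_sumElim]
    ring

theorem Lin.mul_X {p : MvPolynomial (Fin n) ℚ} (hp : Lin p) (j : Fin n) : Lin (p * X j) := by
  obtain ⟨m, N, b, c, u, d, h1, h2, h3, h4, h5, h6, h7⟩ := hp
  refine lin_of (m := Fin m ⊕ Unit)
    (fromBlocks N 0 (Matrix.of fun _ i => -c i) 1) (Sum.elim b fun _ => -d)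
    (Sum.elim 0 fun _ => X j) (Sum.elim u fun _ => p) 0 ?_ ?_ ?_ aff_zero ?_ ?_ ?_
  · rintro (i | i) (l | l)
    · exact h1 i l
    · exact aff_zero
    · exact (h3 l).neg
    · have : (1 : Matrix Unit Unit (MvPolynomial (Fin n) ℚ)) i l = 1 := by
        rw [Subsingleton.elim i l, one_apply_eq]
      show Aff ((1 : Matrix Unit Unit (MvPolynomial (Fin n) ℚ)) i l)
      rw [this]
      exact aff_one
  · rintro (i | i)
    · exact h2 i
    · exact h4.neg
  · rintro (i | i)
    · exact aff_zero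
    · exact aff_X j
  · rw [det_fromBlocks_zero₁₂, h5, det_one, one_mul]
  · rw [fromBlocks_mulVec]
    funext x
    rcases x with i | i
    · have := congrFun h6 i
      simpa using this
    · have h8 : (Matrix.of (fun (_ : Unit) i => -c i) *ᵥ u) i = -(c ⬝ᵥ u) := by
        simp [mulVec, dotProduct]
      have h9 : (Sum.elim u fun (_ : Unit) => p) ∘ Sum.inl = u := rfl
      have h10 : ((1 : Matrix Unit Unit (MvPolynomial (Fin n) ℚ)) *ᵥ
          ((Sum.elim u fun (_ : Unit) => p) ∘ Sum.inr)) i = p := by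
        rw [one_mulVec]
        rfl
      show (Matrix.of (fun (_ : Unit) i => -c i) *ᵥ ((Sum.elim u fun (_ : Unit) => p) ∘ Sum.inl)) i +
        ((1 : Matrix Unit Unit (MvPolynomial (Fin n) ℚ)) *ᵥ
          ((Sum.elim u fun (_ : Unit) => p) ∘ Sum.inr)) i = - -d
      rw [h9, h8, h10, h7]
      ring
  · rw [sumElim_dotProduct_sumElim]
    simp [dotProduct, mul_comm]

theorem lin_all (p : MvPolynomial (Fin n) ℚ) : Lin p := by
  induction p using MvPolynomial.induction_on with
  | C a => exact lin_C a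
  | add p q hp hq => exact hp.add hq
  | mul_X p j hp => exact hp.mul_X j

/-- every polynomial is the determinant of an affine matrix -/
theorem exists_pen (p : MvPolynomial (Fin n) ℚ) :
    ∃ (k : ℕ) (R : Fin (n + 1) → Matrix (Fin k) (Fin k) ℚ),
      ∀ y : Fin n → ℝ, (pen R y).det = aeval y p := by
  obtain ⟨m, N, b, c, u, d, h1, h2, h3, h4, h5, h6, h7⟩ := lin_all p
  let M : Matrix (Fin m ⊕ Unit) (Fin m ⊕ Unit) (MvPolynomial (Fin n) ℚ) :=
    fromBlocks N (Matrix.of fun i _ => b i) (Matrix.of fun _ i => c i) (Matrix.of fun _ _ => d)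
  have hM : ∀ i j, Aff (M i j) := by
    rintro (i | i) (j | j)
    · exact h1 i j
    · exact h2 i
    · exact h3 j
    · exact h4
  have hdet : M.det = p := by
    have e1 : M * fromBlocks 1 (Matrix.of fun i (_ : Unit) => u i) 0 1 =
        fromBlocks N 0 (Matrix.of fun _ i => c i) (Matrix.of fun _ _ => p) := by
      show fromBlocks N (Matrix.of fun i _ => b i) (Matrix.of fun _ i => c i)
        (Matrix.of fun _ _ => d) * fromBlocks 1 (Matrix.of fun i (_ : Unit) => u i) 0 1 = _
      rw [fromBlocks_multiply]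
      congr 1
      · simp
      · refine Matrix.ext fun i j => ?_
        have := congrFun h6 i
        simp only [mulVec, dotProduct, Pi.neg_apply] at this
        rw [Matrix.add_apply, mul_apply, mul_apply]
        simp only [of_apply, this, Finset.univ_unique, Finset.sum_singleton]
        rw [Subsingleton.elim j default, one_apply_eq, mul_one, Matrix.zero_apply]
        ring
      · simp
      · refine Matrix.ext fun i j => ?_
        rw [Matrix.add_apply, mul_apply, mul_apply]
        simp only [of_apply, h7, dotProduct, Finset.univ_unique, Finset.sum_singleton]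
        rw [Subsingleton.elim j default, one_apply_eq, mul_one]
        ring
    have e2 := congrArg Matrix.det e1
    have e3 : (Matrix.of fun (_ _ : Unit) => p).det = p := by
      rw [det_unique]
      rfl
    rw [det_mul, det_fromBlocks_zero₂₁, det_one, det_one, det_fromBlocks_zero₁₂, h5, one_mul,
      mul_one, one_mul, e3] at e2
    exact e2
  choose a l hal using hM
  let e := Fintype.equivFin (Fin m ⊕ Unit)
  refine ⟨Fintype.card (Fin m ⊕ Unit), Fin.cons (Matrix.of fun i j => a (e.symm i) (e.symm j))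
    fun t => Matrix.of fun i j => l (e.symm i) (e.symm j) t, fun y => ?_⟩
  have e3 : pen (Fin.cons (Matrix.of fun i j => a (e.symm i) (e.symm j))
      fun t => Matrix.of fun i j => l (e.symm i) (e.symm j) t) y =
      (M.map (aeval y : MvPolynomial (Fin n) ℚ →ₐ[ℚ] ℝ)).submatrix e.symm e.symm := by
    ext i j
    simp only [pen, of_apply, Fin.cons_zero, Fin.cons_succ, submatrix_apply, map_apply, hal,
      map_add, map_sum, map_mul, aeval_X, aeval_C]
    congr 1
    exact Finset.sum_congr rfl fun t _ => mul_comm _ _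
  rw [e3, det_submatrix_equiv_self, ← hdet]
  exact (AlgHom.map_det (aeval y : MvPolynomial (Fin n) ℚ →ₐ[ℚ] ℝ) M).symm

end Pool.Agent.PEN
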