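import Pool.Agent.PEN.Vol2
import Pool.Agent.PWD.FinT
import Pool.Agent.PWD.VSF

/-!
# Pencil bodies: the clauses on periods (MP_725b61_nt)
-/

set_option autoImplicit false

open MeasureTheory MvPolynomial Real

namespace Pool.Agent.PEN

open Pool.Agent.PWD.T

/-- an absolutely convergent integral of a rational function over `ℝⁿ` is a period -/
theorem period_of_W {n : ℕ} {v : ℝ} (h : W n v) : IsPeriod v := by
  obtain ⟨P, Q, -, h1, h2⟩ := h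
  have hu : {y : Fin n → ℝ | ∀ i : Fin 0, 0 ≤ aeval y ((fun i => i.elim0 :
      Fin 0 → MvPolynomial (Fin n) ℚ) i)} = Set.univ := by
    ext y
    simp
  refine ⟨1, fun _ => n, fun _ => 0, fun _ i => i.elim0, fun _ => P, fun _ => Q, ?_, ?_⟩
  · intro _
    rw [hu, integrableOn_univ]
    exact h1
  · rw [Fin.sum_univ_one, hu, Measure.restrict_univ]
    exact h2.symm

theorem period_one : IsPeriod 1 := by
  refine period_of_W (n := 0) ⟨1, 1, one_ne_zero, ?_, ?_⟩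
  · have : (rat (1 : MvPolynomial (Fin 0) ℚ) 1) = fun _ => (1 : ℝ) := by
      funext x
      simp [rat]
    rw [this]
    exact integrable_const _
  · have : (rat (1 : MvPolynomial (Fin 0) ℚ) 1) = fun _ => (1 : ℝ) := by
      funext x
      simp [rat]
    rw [this, integral_const, Measure.real, volume_pi, Measure.pi_empty_univ]
    simp

theorem Wp_of_PV {n : ℕ} {v : ℝ} (h : PV n v) : Wp n v := by
  obtain ⟨Q, hQ, h0, h1⟩ := (PV_iff n v).1 h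
  refine ⟨1, Q, ⟨hQ, fun x hx => ?_⟩, ?_⟩
  · simp only [rat, map_one]
    exact one_div_pos.2 (lt_of_le_of_ne (h0 x) (Ne.symm hx))
  · have : rat (1 : MvPolynomial (Fin n) ℚ) Q = fun x => 1 / aeval x Q := by
      funext x
      simp [rat]
    rw [this]
    exact h1

theorem PV_of_Rs {n : ℕ} {v : ℝ} (h : Rs n v) : PV n v := by
  obtain ⟨A, B, h0, h1⟩ := h
  refine (PV_iff n v).2 ⟨A ^ 2 + B ^ 2, fun h => ?_, fun x => ?_, ?_⟩
  · have h2 : aeval (0 : Fin n → ℝ) (A ^ 2 + B ^ 2) = (0 : ℝ) := by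
      rw [h, map_zero]
    rw [map_add, map_pow, map_pow] at h2
    exact (h0 0).ne' h2
  · simpa using (h0 x).le
  · simpa using h1

theorem pv_main :
    (∀ (n : ℕ) (v : ℝ), PV n v ↔ ∃ Q : MvPolynomial (Fin n) ℚ, Q ≠ 0 ∧
      (∀ x : Fin n → ℝ, 0 ≤ aeval x Q) ∧ Val (fun x : Fin n → ℝ => 1 / aeval x Q) v) ∧
    (∀ n : ℕ, 1 ≤ n → (∀ a, V n a → 0 < a → PV (n + 1) (π ^ 2 * a)) ∧
      ∀ v, PV n v → ∃ a, V n a ∧ 0 < a ∧ v = π * a) ∧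
    (IsPeriod (1 / π) ↔ ∃ n, 1 ≤ n ∧ PV n 1) ∧
    (IsPeriod (1 / π) ↔ ∃ (n : ℕ) (v : ℝ), 1 ≤ n ∧ PV n v ∧ IsAlgebraic ℚ v) ∧
    (IsPeriod (1 / π) ↔ ∀ x : ℝ, 0 < x → (IsPeriod x ↔ ∃ n, 1 ≤ n ∧ PV n x)) := by
  obtain ⟨-, ⟨r1, r2, r3, r4⟩, w, -, ⟨p1, -, -⟩, -⟩ :=
    Pool.Agent.PWD.fin_T Pool.Agent.PWD.thm_VS
  have hpi : (π : ℝ) ≠ 0 := Real.pi_ne_zero
  have hW : ∀ n v, 1 ≤ n → PV n v → W n v ∧ 0 < v := fun n v hn h =>
    ((w n v hn).2.2).1 (Wp_of_PV h)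
  have h1 : IsPeriod (1 / π) ↔ ∃ n, 1 ≤ n ∧ PV n 1 := by
    constructor
    · intro h
      obtain ⟨n, hn, h⟩ := r1.1 h
      exact ⟨n, hn, PV_of_Rs h⟩
    · rintro ⟨n, hn, h⟩
      refine (p1 _).2 ⟨n, hn, ?_⟩
      rw [mul_one_div_cancel hpi]
      exact (hW n 1 hn h).1
  refine ⟨PV_iff, fun n hn => ⟨fun a ha h0 => PV_of_Rs (r4 n a hn ha h0), fun v hv =>
    ((w n v hn).2.1).1 (Wp_of_PV hv)⟩, h1, ⟨fun h => ?_, ?_⟩, ⟨fun h x hx => ⟨fun h2 => ?_, ?_⟩,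
    fun h => ?_⟩⟩
  · obtain ⟨n, hn, h⟩ := h1.1 h
    exact ⟨n, 1, hn, h, isAlgebraic_one⟩
  · rintro ⟨n, v, hn, hv, ha⟩
    by_contra hno
    exact r3.1 hno n v hn (hW n v hn hv).1 (hW n v hn hv).2.ne' ha
  · obtain ⟨n, hn, h3⟩ := (r2.1 h x hx).1 h2
    exact ⟨n, hn, PV_of_Rs h3⟩
  · rintro ⟨n, hn, h3⟩
    exact period_of_W (hW n x hn h3).1
  · exact h1.2 ((h 1 one_pos).1 period_one)

end Pool.Agent.PEN
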