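import Pool.Agent.PEN.Lin

/-!
# Pencil bodies: the volume (MP_725b61_nt)
-/

set_option autoImplicit false

open MvPolynomial Matrix MeasureTheory

namespace Pool.Agent.PEN

variable {n k : ℕ}

theorem continuous_pen (R : Fin (n + 1) → Matrix (Fin k) (Fin k) ℚ) : Continuous (pen R) := by
  unfold pen
  refine continuous_matrix fun i j => ?_
  simp only [of_apply]
  fun_prop

theorem isClosed_body (R : Fin (n + 1) → Matrix (Fin k) (Fin k) ℚ) : IsClosed (body R) := by
  have h : body R = ⋂ i, {p : (Fin n → ℝ) × (Fin k → ℝ) | |∑ j, pen R p.1 i j * p.2 j| ≤ 1 / 2} := by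
    ext p
    simp [body]
  rw [h]
  refine isClosed_iInter fun i => isClosed_le ?_ continuous_const
  refine continuous_abs.comp (continuous_finsetSum _ fun j _ => ?_)
  have h1 : Continuous fun p : (Fin n → ℝ) × (Fin k → ℝ) => pen R p.1 i j :=
    ((continuous_pen R).comp continuous_fst).matrix_elem i j
  fun_prop

theorem vol_cube : volume (Set.Icc (fun _ : Fin k => (-(1 / 2) : ℝ)) fun _ => 1 / 2) = 1 := by
  rw [Real.volume_Icc_pi]
  norm_num

theorem pen_aeval (R : Fin (n + 1) → Matrix (Fin k) (Fin k) ℚ) :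
    ∃ Q : MvPolynomial (Fin n) ℚ, ∀ y : Fin n → ℝ, aeval y Q = (pen R y).det := by
  refine ⟨(Matrix.of fun i j => (C (R 0 i j) + ∑ l, X l * C (R l.succ i j) :
    MvPolynomial (Fin n) ℚ)).det, fun y => ?_⟩
  rw [AlgHom.map_det]
  congr 1
  ext i j
  simp [pen]

end Pool.Agent.PEN
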