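import Pool.Agent.PWD.DCA
import Pool.Agent.PWD.ZNL
import Pool.Agent.PEN.Vol

/-!
# Pencil bodies: integrable reciprocals of polynomials do not change sign (MP_725b61_nt)
-/

set_option autoImplicit false

open MeasureTheory Filter Topology Asymptotics

namespace Pool.Agent.PEN

/-- the reciprocal of a polynomial is not integrable near a root -/
theorem root_not_int (q : Polynomial ℝ) (hq : q ≠ 0) (a b r : ℝ) (hab : a ≠ b)
    (hr : r ∈ Set.uIcc a b) (h0 : q.eval r = 0) :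
    ¬ IntervalIntegrable (fun t => 1 / q.eval t) volume a b := by
  obtain ⟨s, hs⟩ := Polynomial.dvd_iff_isRoot.2 (show q.IsRoot r from h0)
  have hfin : ∀ᶠ x in 𝓝[≠] r, q.eval x ≠ 0 := by
    have h1 : (q.rootSet ℝ).Finite := q.rootSet_finite ℝ
    have h3 : (q.rootSet ℝ \ {r}).Finite := h1.subset Set.sdiff_subset
    have h4 : (q.rootSet ℝ \ {r})ᶜ ∈ 𝓝 r := h3.isClosed.isOpen_compl.mem_nhds (by simp)
    have h5 : (q.rootSet ℝ \ {r})ᶜ ∈ 𝓝[≠] r := mem_nhdsWithin_of_mem_nhds h4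
    filter_upwards [h5, self_mem_nhdsWithin] with x hx hx2 h
    exact hx ⟨(Polynomial.mem_rootSet_of_ne hq).2 (by simpa [Polynomial.aeval_def] using h), hx2⟩
  have hbig : (fun x : ℝ => (x - r)⁻¹) =O[𝓝[≠] r] fun t : ℝ => 1 / q.eval t := by
    have hb : (fun x : ℝ => s.eval x) =O[𝓝[≠] r] fun _ : ℝ => (1 : ℝ) := by
      have : Tendsto (fun x : ℝ => s.eval x) (𝓝[≠] r) (𝓝 (s.eval r)) :=
        s.continuous.continuousAt.mono_left nhdsWithin_le_nhds
      exact this.isBigO_one ℝ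
    have h1 : (fun x : ℝ => (1 / q.eval x) * s.eval x) =O[𝓝[≠] r]
        fun t : ℝ => 1 / q.eval t * 1 := (isBigO_refl _ _).mul hb
    refine (h1.congr' ?_ ?_)
    · filter_upwards [hfin, self_mem_nhdsWithin] with x hx hx3
      have h4 : x - r ≠ 0 := sub_ne_zero.2 hx3
      have h5 : q.eval x = (x - r) * s.eval x := by
        rw [hs]
        simp
      rw [h5] at hx ⊢
      have h6 : s.eval x ≠ 0 := right_ne_zero_of_mul hx
      field_simp
    · exact Eventually.of_forall fun x => by simp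
  exact not_intervalIntegrable_of_sub_inv_isBigO_punctured hbig hab hr

variable {n k : ℕ}

theorem cont_aeval (Q : MvPolynomial (Fin n) ℚ) :
    Continuous fun x : Fin n → ℝ => MvPolynomial.aeval x Q := by
  have h : (fun x : Fin n → ℝ => MvPolynomial.aeval x Q) =
      fun x => MvPolynomial.eval x (MvPolynomial.map (algebraMap ℚ ℝ) Q) := by
    funext x
    rw [MvPolynomial.eval_map, MvPolynomial.aeval_def]
  rw [h]
  exact MvPolynomial.continuous_eval _

/-- the restriction of a polynomial to a line -/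
theorem line_poly (Q : MvPolynomial (Fin n) ℚ) (z e : Fin n → ℝ) :
    ∃ q : Polynomial ℝ, ∀ t : ℝ, q.eval t = MvPolynomial.aeval (z + t • e) Q := by
  refine ⟨MvPolynomial.aeval (fun i => Polynomial.C (z i) + Polynomial.C (e i) * Polynomial.X) Q,
    fun t => ?_⟩
  have h := MvPolynomial.comp_aeval_apply
    (fun i => Polynomial.C (z i) + Polynomial.C (e i) * Polynomial.X)
    ((Polynomial.aeval t : Polynomial ℝ →ₐ[ℝ] ℝ).restrictScalars ℚ) Q
  have h2 : (fun i => ((Polynomial.aeval t : Polynomial ℝ →ₐ[ℝ] ℝ).restrictScalars ℚ)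
      (Polynomial.C (z i) + Polynomial.C (e i) * Polynomial.X)) = z + t • e := by
    funext i
    simp
    ring
  rw [h2] at h
  rw [← h]
  simp [Polynomial.coe_aeval_eq_eval]

theorem semi (Q : MvPolynomial (Fin n) ℚ)
    (hi : Integrable (fun x : Fin n → ℝ => 1 / MvPolynomial.aeval x Q)) :
    (∀ x : Fin n → ℝ, 0 ≤ MvPolynomial.aeval x Q) ∨ ∀ x : Fin n → ℝ, MvPolynomial.aeval x Q ≤ 0 := by
  by_contra hno
  push Not at hno
  obtain ⟨⟨a, ha⟩, ⟨b, hb⟩⟩ := hno
  have hc : Continuous fun x : Fin n → ℝ => MvPolynomial.aeval x Q := cont_aeval Q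
  obtain ⟨e, he⟩ : ∃ e, e = b - a := ⟨_, rfl⟩
  obtain ⟨f, hf⟩ : ∃ f : (Fin n → ℝ) → ℝ, f = fun x => 1 / MvPolynomial.aeval x Q := ⟨_, rfl⟩
  have hfm : Measurable f := by
    rw [hf]
    exact measurable_const.div hc.measurable
  have hff : ∫⁻ z, ‖f z‖ₑ < ⊤ := by
    rw [hf]
    exact hi.2
  have hm : Measurable fun p : (Fin n → ℝ) × ℝ => ‖f (p.1 + p.2 • e)‖ₑ := by
    refine (hfm.comp ?_).enorm
    fun_prop
  have h1 : ∫⁻ z, ∫⁻ t in Set.Icc (0 : ℝ) 1, ‖f (z + t • e)‖ₑ = ∫⁻ z, ‖f z‖ₑ := by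
    rw [lintegral_lintegral_swap hm.aemeasurable]
    simp only [lintegral_add_right_eq_self (fun z => ‖f z‖ₑ)]
    simp
  have h2 : ∀ᵐ z, ∫⁻ t in Set.Icc (0 : ℝ) 1, ‖f (z + t • e)‖ₑ < ⊤ := by
    refine ae_lt_top ?_ (by rw [h1]; exact hff.ne)
    exact hm.lintegral_prod_right'
  have hU : IsOpen {z : Fin n → ℝ | MvPolynomial.aeval z Q < 0 ∧
      0 < MvPolynomial.aeval (z + e) Q} := by
    refine IsOpen.and (isOpen_lt hc continuous_const) (isOpen_lt continuous_const ?_)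
    exact hc.comp (continuous_id.add continuous_const)
  obtain ⟨z, hz, hz1, hz2⟩ := (Measure.dense_of_ae h2).exists_mem_open hU ⟨a, ha, by
    rw [he, add_sub_cancel]
    exact hb⟩
  obtain ⟨q, hq⟩ := line_poly Q z e
  have q0 : q.eval 0 < 0 := by
    rw [hq]
    simpa using hz1
  have q1 : 0 < q.eval 1 := by
    rw [hq]
    simpa using hz2
  have hq0 : q ≠ 0 := by
    rintro rfl
    simp at q0
  obtain ⟨r, hr, hr0⟩ := intermediate_value_Icc zero_le_one q.continuous.continuousOn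
    ⟨q0.le, q1.le⟩
  refine root_not_int q hq0 0 1 r zero_ne_one (by rwa [Set.uIcc_of_le zero_le_one]) hr0 ?_
  rw [intervalIntegrable_iff_integrableOn_Icc_of_le zero_le_one]
  refine ⟨(measurable_const.div q.continuous.measurable).aestronglyMeasurable, ?_⟩
  have h3 : ∀ t : ℝ, 1 / q.eval t = f (z + t • e) := by
    intro t
    rw [hq, hf]
  simp only [h3]
  exact hz

end Pool.Agent.PEN
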