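import Pool.Agent.PEN.Semi

/-!
# Pencil bodies: singular matrices (MP_725b61_nt)
-/

set_option autoImplicit false

open Matrix MeasureTheory

namespace Pool.Agent.PEN

variable {n k : ℕ}

/-- for a singular matrix the slice has infinite volume -/
theorem sing_vol (M : Matrix (Fin k) (Fin k) ℝ) (h : M.det = 0) :
    volume {z : Fin k → ℝ | ∀ i, |(M *ᵥ z) i| ≤ 1 / 2} = ⊤ := by
  obtain ⟨v, hv, hMv⟩ := Matrix.exists_mulVec_eq_zero_iff.2 h
  obtain ⟨j, hj⟩ := Function.ne_iff.1 hv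
  obtain ⟨w, hw⟩ : ∃ w : Fin k → ℝ, w = Pi.single j (v j)⁻¹ := ⟨_, rfl⟩
  obtain ⟨N, hN⟩ : ∃ N : Matrix (Fin k) (Fin k) ℝ, N = 1 + replicateCol Unit v * replicateRow Unit w :=
    ⟨_, rfl⟩
  have hdet : N.det = 2 := by
    rw [hN, det_one_add_replicateCol_mul_replicateRow, hw, single_dotProduct,
      inv_mul_cancel₀ hj]
    norm_num
  have hN1 : M * N = M + (M * replicateCol Unit v) * replicateRow Unit w := by
    rw [hN, mul_add, mul_one, Matrix.mul_assoc]
  have hN2 : M * replicateCol Unit v = 0 := by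
    ext i l
    have := congrFun hMv i
    simpa [mul_apply, mulVec, dotProduct] using this
  have hMN : M * N = M := by
    rw [hN1, hN2, Matrix.zero_mul, add_zero]
  have hpre : Matrix.toLin' N ⁻¹' {z : Fin k → ℝ | ∀ i, |(M *ᵥ z) i| ≤ 1 / 2} =
      {z : Fin k → ℝ | ∀ i, |(M *ᵥ z) i| ≤ 1 / 2} := by
    ext z
    simp only [Set.mem_preimage, Set.mem_ofPred_eq, toLin'_apply, mulVec_mulVec, hMN]
  have h2 : LinearMap.det (Matrix.toLin' N) ≠ 0 := by
    rw [LinearMap.det_toLin', hdet]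
    norm_num
  have h3 := Measure.addHaar_preimage_linearMap (volume : Measure (Fin k → ℝ)) h2
    {z : Fin k → ℝ | ∀ i, |(M *ᵥ z) i| ≤ 1 / 2}
  rw [hpre, LinearMap.det_toLin', hdet] at h3
  by_contra hne
  have hc : Continuous fun z : Fin k → ℝ => M *ᵥ z := by fun_prop
  have hpos : 0 < volume {z : Fin k → ℝ | ∀ i, |(M *ᵥ z) i| ≤ 1 / 2} := by
    have hU : IsOpen {z : Fin k → ℝ | ∀ i, |(M *ᵥ z) i| < 1 / 2} := by
      have : {z : Fin k → ℝ | ∀ i, |(M *ᵥ z) i| < 1 / 2} =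
          ⋂ i, {z : Fin k → ℝ | |(M *ᵥ z) i| < 1 / 2} := by
        ext z
        simp
      rw [this]
      refine isOpen_iInter_of_finite fun i => isOpen_lt ?_ continuous_const
      exact continuous_abs.comp ((continuous_apply i).comp hc)
    refine (hU.measure_pos volume ⟨0, fun i => ?_⟩).trans_le (measure_mono fun z hz i => (hz i).le)
    rw [mulVec_zero]
    norm_num
  obtain ⟨V, hV⟩ : ∃ V, V = (volume {z : Fin k → ℝ | ∀ i, |(M *ᵥ z) i| ≤ 1 / 2}).toReal := ⟨_, rfl⟩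
  have h4 : V = |(2 : ℝ)⁻¹| * V := by
    have := congrArg ENNReal.toReal h3
    rw [ENNReal.toReal_mul, ENNReal.toReal_ofReal (abs_nonneg _)] at this
    rw [hV]
    exact this
  have h5 : 0 < V := by
    rw [hV]
    exact ENNReal.toReal_pos hpos.ne' hne
  rw [abs_of_pos (by norm_num)] at h4
  linarith

end Pool.Agent.PEN
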