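import Pool.Agent.PEN.Sing

/-!
# Pencil bodies: the volume formula (MP_725b61_nt)
-/

set_option autoImplicit false

open MvPolynomial Matrix MeasureTheory

namespace Pool.Agent.PEN

variable {n k : ℕ}

theorem slice_eq (R : Fin (n + 1) → Matrix (Fin k) (Fin k) ℚ) (y : Fin n → ℝ) :
    Prod.mk y ⁻¹' body R = {z : Fin k → ℝ | ∀ i, |(pen R y *ᵥ z) i| ≤ 1 / 2} := rfl

theorem slice_vol (R : Fin (n + 1) → Matrix (Fin k) (Fin k) ℚ) (y : Fin n → ℝ)
    (h : (pen R y).det ≠ 0) :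
    volume (Prod.mk y ⁻¹' body R) = ENNReal.ofReal |1 / (pen R y).det| := by
  have h1 : Prod.mk y ⁻¹' body R =
      Matrix.toLin' (pen R y) ⁻¹' Set.Icc (fun _ : Fin k => (-(1 / 2) : ℝ)) fun _ => 1 / 2 := by
    ext z
    simp only [body, Set.mem_preimage, Set.mem_ofPred_eq, Set.mem_Icc, Pi.le_def, toLin'_apply,
      mulVec, dotProduct, abs_le, ← forall_and]
  have h2 : LinearMap.det (Matrix.toLin' (pen R y)) ≠ 0 := by
    rw [LinearMap.det_toLin']
    exact h
  rw [h1, Measure.addHaar_preimage_linearMap _ h2, vol_cube, mul_one, LinearMap.det_toLin', one_div]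

theorem vol_body (R : Fin (n + 1) → Matrix (Fin k) (Fin k) ℚ) :
    volume (body R) = ∫⁻ y, volume (Prod.mk y ⁻¹' body R) := by
  rw [Measure.volume_eq_prod, Measure.prod_apply (isClosed_body R).measurableSet]

theorem vol_body_ae (R : Fin (n + 1) → Matrix (Fin k) (Fin k) ℚ)
    (h : ∀ᵐ y : Fin n → ℝ, (pen R y).det ≠ 0) :
    volume (body R) = ∫⁻ y, ENNReal.ofReal |1 / (pen R y).det| := by
  rw [vol_body]
  refine lintegral_congr_ae ?_
  filter_upwards [h] with y hy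
  exact slice_vol R y hy

theorem vol_body_zero (R : Fin (n + 1) → Matrix (Fin k) (Fin k) ℚ)
    (h : ∀ y : Fin n → ℝ, (pen R y).det = 0) : volume (body R) = ⊤ := by
  rw [vol_body]
  have h1 : ∀ y : Fin n → ℝ, volume (Prod.mk y ⁻¹' body R) = ⊤ := fun y => by
    rw [slice_eq]
    exact sing_vol _ (h y)
  simp only [h1, lintegral_const]
  exact ENNReal.top_mul (Measure.measure_univ_ne_zero.2 (NeZero.ne _))

theorem PV_iff (n : ℕ) (v : ℝ) : PV n v ↔ ∃ Q : MvPolynomial (Fin n) ℚ, Q ≠ 0 ∧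
    (∀ x : Fin n → ℝ, 0 ≤ aeval x Q) ∧ PWD.T.Val (fun x : Fin n → ℝ => 1 / aeval x Q) v := by
  have key : ∀ (k : ℕ) (R : Fin (n + 1) → Matrix (Fin k) (Fin k) ℚ) (Q : MvPolynomial (Fin n) ℚ),
      (∀ y : Fin n → ℝ, aeval y Q = (pen R y).det) → Q ≠ 0 →
      volume (body R) = ∫⁻ y : Fin n → ℝ, ‖1 / aeval y Q‖ₑ := by
    intro k R Q hQ h0
    rw [vol_body_ae R]
    · refine lintegral_congr fun y => ?_
      rw [hQ, Real.enorm_eq_ofReal_abs]
    · filter_upwards [PWD.ae_aeval_ne Q h0] with y hy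
      rw [← hQ]
      exact hy
  have hm : ∀ Q : MvPolynomial (Fin n) ℚ,
      AEStronglyMeasurable (fun x : Fin n → ℝ => 1 / aeval x Q) volume := fun Q =>
    (measurable_const.div (cont_aeval Q).measurable).aestronglyMeasurable
  have hv : ∀ Q : MvPolynomial (Fin n) ℚ, (∀ x : Fin n → ℝ, 0 ≤ aeval x Q) →
      ∫ x : Fin n → ℝ, 1 / aeval x Q = (∫⁻ x : Fin n → ℝ, ‖1 / aeval x Q‖ₑ).toReal := by
    intro Q h0
    have h1 : ∀ x : Fin n → ℝ, 0 ≤ 1 / aeval x Q := fun x => one_div_nonneg.2 (h0 x)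
    rw [integral_eq_lintegral_of_nonneg_ae (ae_of_all _ h1) (hm Q)]
    congr 1
    refine lintegral_congr fun x => ?_
    rw [Real.enorm_eq_ofReal (h1 x)]
  constructor
  · rintro ⟨k, R, hfin, hval⟩
    obtain ⟨Q, hQ⟩ := pen_aeval R
    have h0 : Q ≠ 0 := by
      rintro rfl
      exact hfin (vol_body_zero R fun y => by rw [← hQ, map_zero])
    have hk := key k R Q hQ h0
    have hi : Integrable (fun x : Fin n → ℝ => 1 / aeval x Q) :=
      ⟨hm Q, by rw [hasFiniteIntegral_iff_enorm, ← hk]; exact hfin.lt_top⟩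
    rcases semi Q hi with h | h
    · exact ⟨Q, h0, h, hi, by rw [hv Q h, hval, hk]⟩
    · have h' : ∀ x : Fin n → ℝ, 0 ≤ aeval x (-Q) := fun x => by
        rw [map_neg]
        exact neg_nonneg.2 (h x)
      have he : (fun x : Fin n → ℝ => 1 / aeval x (-Q)) = fun x => -(1 / aeval x Q) := by
        funext x
        rw [map_neg, div_neg]
      refine ⟨-Q, neg_ne_zero.2 h0, h', ?_, ?_⟩
      · rw [he]
        exact hi.neg
      · rw [hv (-Q) h', hval, hk]
        congr 1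
        refine lintegral_congr fun x => ?_
        rw [map_neg, div_neg, enorm_neg]
  · rintro ⟨Q, h0, h, hi, hval⟩
    obtain ⟨k, R, hR⟩ := exists_pen Q
    have hk := key k R Q (fun y => (hR y).symm) h0
    refine ⟨k, R, ?_, ?_⟩
    · rw [hk]
      exact hi.2.ne
    · rw [hk, ← hv Q h, hval]

end Pool.Agent.PEN
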